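import Pool.Agent.L7h60.RL.Cls

/-!
# Project RL (helper82): [LS]

The comparison of the `L`-series of a Weierstrass curve over an abelian extension with the product of the twists.
-/

set_option autoImplicit false
set_option linter.unusedSectionVars false

namespace Pool.Agent.L7h60.RL

open IsDedekindDomain NumberField IsLocalRing Pool.Agent.W189.NF Filter Topology
open Pool.Agent.H921R2.TatePole (nm two_le_nm)
open Pool.Agent.K4H55.CX (facF efx Law cpow_two ord)
open Pool.Agent.K4H55.BI (IQ gen)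
open Pool.Agent.K4H55.BD (low mem_low)
open Pool.Agent.L7h15.BK (cv npt pol pol_diff tpol efx_eq tpol_eq tpol_diff tpol_ne nm_two fin_bad
  HB hb_place loc_good norm_gt fac_eq)
open Pool.Agent.L7h82.RL

section pol

variable {M : Type} [Field M] [NumberField M] (E : WeierstrassCurve M)

lemma ae_cases (u : HeightOneSpectrum (𝓞 M)) :
    (eV E u = nm u ∧ |aV E u| ≤ nm u) ∨ (eV E u = 0 ∧ |aV E u| ≤ 1) := by
  by_cases hg : ((E.baseChange (u.adicCompletion M)).minimal
      (u.adicCompletionIntegers M)).HasGoodReduction (u.adicCompletionIntegers M)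
  · refine Or.inl ⟨?_, aV_le E u⟩
    unfold eV eLoc
    rw [if_pos hg, card_res]
  · refine Or.inr ⟨?_, ?_⟩
    · unfold eV eLoc
      rw [if_neg hg]
    · unfold aV aLoc
      rw [if_neg hg]
      split_ifs <;> simp

/-- the value of a local factor at `1` -/
lemma pol_one (u : HeightOneSpectrum (𝓞 M)) : ∃ r : ℚ, r ≠ 0 ∧ pol E u 1 = (r : ℂ) := by
  have hq2 : (2 : ℚ) ≤ nm u := by exact_mod_cast two_le_nm u
  have hq0 : (0 : ℚ) < nm u := by linarith
  have hqC : ((nm u : ℕ) : ℂ) ≠ 0 := by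
    have := two_le_nm u
    exact_mod_cast (by omega : nm u ≠ 0)
  refine ⟨1 - (aV E u : ℚ) / nm u + (eV E u : ℚ) / (nm u : ℚ) ^ 2, ?_, ?_⟩
  · apply ne_of_gt
    rcases ae_cases E u with ⟨h1, h2⟩ | ⟨h1, h2⟩
    · rw [h1]
      have h3 : (aV E u : ℚ) ≤ nm u := by exact_mod_cast (le_abs_self _).trans h2
      have h4 : 1 - (aV E u : ℚ) / nm u + ((nm u : ℤ) : ℚ) / (nm u : ℚ) ^ 2 =
          (((nm u : ℚ) - aV E u) + 1) / nm u := by
        push_cast
        field_simp
      rw [h4]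
      apply div_pos _ hq0
      linarith
    · rw [h1]
      have h3 : (aV E u : ℚ) ≤ 1 := by exact_mod_cast (le_abs_self _).trans h2
      have h4 : 1 - (aV E u : ℚ) / nm u + ((0 : ℤ) : ℚ) / (nm u : ℚ) ^ 2 =
          ((nm u : ℚ) - aV E u) / nm u := by
        push_cast
        field_simp
        ring
      rw [h4]
      apply div_pos _ hq0
      linarith
  · unfold pol
    rw [Complex.cpow_neg_one]
    push_cast
    field_simp

/-- the local factors for `Re s > 2` -/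
lemma pol_ne2 (u : HeightOneSpectrum (𝓞 M)) {s : ℂ} (hs : 2 < s.re) : pol E u s ≠ 0 := by
  have hq2 : (2 : ℝ) ≤ nm u := by exact_mod_cast two_le_nm u
  have hq0 : (0 : ℝ) < nm u := by linarith
  set t : ℂ := ((nm u : ℕ) : ℂ) ^ (-s) with ht
  have ht1 : ‖t‖ ≤ ((nm u : ℝ) ^ 2)⁻¹ := by
    rw [ht, Complex.norm_natCast_cpow_of_pos (by have := two_le_nm u; omega), Complex.neg_re]
    calc (nm u : ℝ) ^ (-s.re) ≤ (nm u : ℝ) ^ (-2 : ℝ) :=
          Real.rpow_le_rpow_of_exponent_le (by linarith) (by linarith)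
      _ = ((nm u : ℝ) ^ 2)⁻¹ := by
          rw [Real.rpow_neg hq0.le]
          norm_num
  have ha : |(aV E u : ℝ)| ≤ nm u := by exact_mod_cast aV_le E u
  have he : |(eV E u : ℝ)| ≤ nm u := by exact_mod_cast eV_le E u
  have h1 : ‖(aV E u : ℂ) * t‖ ≤ 1 / 2 := by
    rw [norm_mul, Complex.norm_intCast]
    calc |(aV E u : ℝ)| * ‖t‖ ≤ nm u * ((nm u : ℝ) ^ 2)⁻¹ :=
          mul_le_mul ha ht1 (norm_nonneg _) hq0.le
      _ = (nm u : ℝ)⁻¹ := by field_simp
      _ ≤ 2⁻¹ := inv_anti₀ (by norm_num) hq2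
      _ = 1 / 2 := by norm_num
  have h2 : ‖(eV E u : ℂ) * t ^ 2‖ ≤ 1 / 8 := by
    rw [norm_mul, Complex.norm_intCast, norm_pow]
    calc |(eV E u : ℝ)| * ‖t‖ ^ 2 ≤ nm u * (((nm u : ℝ) ^ 2)⁻¹) ^ 2 :=
          mul_le_mul he (pow_le_pow_left₀ (norm_nonneg _) ht1 2) (by positivity) hq0.le
      _ = ((nm u : ℝ) ^ 3)⁻¹ := by field_simp
      _ ≤ ((2 : ℝ) ^ 3)⁻¹ := inv_anti₀ (by norm_num) (pow_le_pow_left₀ (by norm_num) hq2 3)
      _ = 1 / 8 := by norm_num
  intro h0
  have h3 : (1 : ℂ) = (aV E u : ℂ) * t - (eV E u : ℂ) * t ^ 2 := by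
    have h4 : 1 - (aV E u : ℂ) * t + (eV E u : ℂ) * t ^ 2 = 0 := h0
    linear_combination h4
  have h4 : (1 : ℝ) ≤ 1 / 2 + 1 / 8 := by
    calc (1 : ℝ) = ‖(1 : ℂ)‖ := norm_one.symm
      _ = ‖(aV E u : ℂ) * t - (eV E u : ℂ) * t ^ 2‖ := by rw [← h3]
      _ ≤ ‖(aV E u : ℂ) * t‖ + ‖(eV E u : ℂ) * t ^ 2‖ := norm_sub_le _ _
      _ ≤ 1 / 2 + 1 / 8 := add_le_add h1 h2
  norm_num at h4

end pol

open Classical in
/-- **LS** -/
theorem s_LS : S_LS := by
  intro _ hCYC hPOW hRAT _ K F _ _ _ _ _ _ _ _ σ δ n a b c hIQ hΔ hloc hab 𝔣 χ hR Gp gp1 gp2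
  obtain ⟨hcf, hlw⟩ := cls hab hR
  set d : 𝓞 K := 2 * (4 * a ^ 3 + 27 * b ^ 2) with hd
  have hd0 : d ≠ 0 := mul_ne_zero two_ne_zero hΔ
  set E : WeierstrassCurve F := cv (algebraMap K F a) (algebraMap K F b) with hEd
  -- the characters
  have hch : ∀ ψ, PK (𝔣 ψ) (χ ψ) := fun ψ => (hR ψ).ch
  obtain ⟨-, hpow, -⟩ := hPOW K ((F ≃ₐ[K] F) →* ℂˣ) 𝔣 χ hch hcf.mul
  have hchn : ∀ ψ x, ‖χ ψ x‖ ≤ 1 := by
    intro ψ x
    by_cases h0 : χ ψ x = 0
    · rw [h0, norm_zero]
      exact zero_le_one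
    · exact (Complex.norm_eq_one_of_pow_eq_one (hpow ψ x h0) Nat.card_pos.ne').le
  have hrat := (hRAT hCYC hPOW K ((F ≃ₐ[K] F) →* ℂˣ) 𝔣 χ hch hcf.mul Finset.univ
    (fun g _ k _ => Finset.mem_univ _)).2
  -- the good places
  have hgood : ∀ v : HeightOneSpectrum (𝓞 K), d ∉ v.asIdeal → n ∉ v.asIdeal ∧
      c v.asIdeal = (Ideal.absNorm v.asIdeal : ℂ) -
        npt (Ideal.Quotient.mk v.asIdeal a) (Ideal.Quotient.mk v.asIdeal b) := by
    intro v hv
    obtain ⟨h1, h2⟩ := loc_good (a := a) (b := b) hv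
    obtain ⟨h3, h4⟩ := hloc v
    have hnm : nm v = Ideal.absNorm v.asIdeal := rfl
    constructor
    · intro hn
      rw [if_pos hn, h2] at h4
      have h5 : nm v = 0 := by exact_mod_cast h4
      have := two_le_nm v
      omega
    · rw [h3, h1, hnm]
      push_cast
      ring
  -- the bounds
  have hHK : ∀ v : HeightOneSpectrum (𝓞 K), HB (aV (cv (a : K) (b : K)) v)
      (eV (cv (a : K) (b : K)) v) (nm v) := by
    intro v
    refine hb_place _ v ?_
    by_cases h2 : (2 : 𝓞 K) ∈ v.asIdeal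
    · exact Or.inr (nm_two hIQ.deg h2)
    · exact Or.inl h2
  set G : ℂ → ℂ := fun s => ∏ ψ, Gp ψ s with hG
  have g1 : Differentiable ℂ G := Differentiable.fun_finsetProd fun ψ _ => gp1 ψ
  have g2 : ∀ s : ℂ, 2 < s.re → HasProd (fun v : HeightOneSpectrum (𝓞 K) =>
        ∏ᶠ u : {u : HeightOneSpectrum (𝓞 F) //
          u.asIdeal.comap (algebraMap (𝓞 K) (𝓞 F)) = v.asIdeal},
            facF n c v (Ideal.absNorm u.1.asIdeal) s) (G s) := by
    intro s hs
    simp only [above_prod (n := n) (c := c) hcf hlw]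
    exact hasProd_prod fun ψ _ => gp2 ψ s hs
  -- the factors
  set Ab : HeightOneSpectrum (𝓞 K) → Type := fun v => {u : HeightOneSpectrum (𝓞 F) //
    u.asIdeal.comap (algebraMap (𝓞 K) (𝓞 F)) = v.asIdeal} with hAb
  have hAfin : ∀ v, Finite (Ab v) := by
    intro v
    have h1 := hlw.card v
    refine Nat.finite_of_card_ne_zero fun h0 => ?_
    have h2 : Nat.card {u : HeightOneSpectrum (𝓞 F) //
      u.asIdeal.comap (algebraMap (𝓞 K) (𝓞 F)) = v.asIdeal} = 0 := h0
    rw [h2, zero_mul] at h1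
    have h3 : Nonempty {g // χ g (gen v) ≠ 0} := ⟨⟨1, by rw [hcf.triv]; exact one_ne_zero⟩⟩
    have h4 : 0 < Nat.card {g // χ g (gen v) ≠ 0} := Nat.card_pos
    omega
  have hAft : ∀ v, Fintype (Ab v) := fun v => Fintype.ofFinite _
  set B : Finset (HeightOneSpectrum (𝓞 K)) := (fin_bad hd0).toFinset with hB
  have hBm : ∀ v, v ∈ B ↔ d ∈ v.asIdeal := fun v => by
    rw [hB, Set.Finite.mem_toFinset]
    rfl
  set P : ℂ → ℂ := fun s => ∏ v ∈ B, ∏ u : Ab v, pol E u.1 s with hPd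
  set Q : ℂ → ℂ := fun s => ∏ v ∈ B, ∏ ψ, tpol n c (χ ψ (gen v)) v s with hQd
  have hPdiff : Differentiable ℂ P := by
    refine Differentiable.fun_finsetProd fun v _ => Differentiable.fun_finsetProd fun u _ => ?_
    exact pol_diff E u.1
  have hQdiff : Differentiable ℂ Q := by
    refine Differentiable.fun_finsetProd fun v _ => Differentiable.fun_finsetProd fun ψ _ => ?_
    exact tpol_diff _ v (hloc v).1 (hloc v).2
  have hPne : ∀ s : ℂ, 2 < s.re → P s ≠ 0 := fun s hs =>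
    Finset.prod_ne_zero_iff.2 fun v _ => Finset.prod_ne_zero_iff.2 fun u _ => pol_ne2 E u.1 hs
  -- the values at `1`
  obtain ⟨rP, hrP0, hrP⟩ : ∃ r : ℚ, r ≠ 0 ∧ P 1 = (r : ℂ) := by
    choose r hr0 hr using fun u : HeightOneSpectrum (𝓞 F) => pol_one E u
    refine ⟨∏ v ∈ B, ∏ u : Ab v, r u.1, Finset.prod_ne_zero_iff.2 fun v _ =>
      Finset.prod_ne_zero_iff.2 fun u _ => hr0 u.1, ?_⟩
    rw [hPd]
    simp only [hr]
    push_cast
    rfl
  have hP1 : P 1 ≠ 0 := by rw [hrP]; exact_mod_cast hrP0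
  have hQ1 : Q 1 ≠ 0 :=
    Finset.prod_ne_zero_iff.2 fun v _ => Finset.prod_ne_zero_iff.2 fun ψ _ =>
      tpol_ne (hchn ψ _) (by norm_num) (hloc v).1 (hloc v).2 (hHK v)
  obtain ⟨rQ, hrQ⟩ : ∃ r : ℚ, Q 1 = (r : ℂ) := by
    have hv : ∀ v : HeightOneSpectrum (𝓞 K), ∃ r : ℚ,
        ∏ ψ, tpol n c (χ ψ (gen v)) v 1 = (r : ℂ) := by
      intro v
      have hqv : ((Ideal.absNorm v.asIdeal : ℕ) : ℂ) ≠ 0 := by
        have := norm_gt v
        exact_mod_cast (by omega : Ideal.absNorm v.asIdeal ≠ 0)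
      set q : ℕ := Ideal.absNorm v.asIdeal with hq
      set av := aV (cv (a : K) (b : K)) v
      set ev := eV (cv (a : K) (b : K)) v
      obtain ⟨m, hm⟩ := hrat (Polynomial.C ((q : ℤ) ^ 2) - Polynomial.C (av * q) * Polynomial.X +
        Polynomial.C ev * Polynomial.X ^ 2) (gen v)
      refine ⟨(m : ℚ) / ((q : ℚ) ^ 2) ^ Fintype.card ((F ≃ₐ[K] F) →* ℂˣ), ?_⟩
      push_cast
      rw [← hm, eq_div_iff (pow_ne_zero _ (pow_ne_zero _ hqv)), ← Finset.card_univ,
        ← Finset.prod_const, ← Finset.prod_mul_distrib]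
      refine Finset.prod_congr rfl fun ψ _ => ?_
      rw [tpol_eq (χ ψ (gen v)) v 1 (hloc v).1 (hloc v).2, Complex.cpow_neg_one]
      simp only [map_add, map_sub, map_mul, map_pow, Polynomial.aeval_C, Polynomial.aeval_X,
        algebraMap_int_eq, eq_intCast, map_intCast, map_natCast]
      push_cast
      rw [← hq]
      field_simp
      ring
    choose r hr using hv
    refine ⟨∏ v ∈ B, r v, ?_⟩
    rw [hQd]
    simp only [hr]
    push_cast
    rfl
  have hrQ0 : rQ ≠ 0 := by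
    rintro rfl
    rw [Rat.cast_zero] at hrQ
    exact hQ1 hrQ
  -- the comparison for `Re s > 2`
  have hQne : ∀ s : ℂ, 1 / 2 < s.re → Q s ≠ 0 := fun s hs =>
    Finset.prod_ne_zero_iff.2 fun v _ => Finset.prod_ne_zero_iff.2 fun ψ _ =>
      tpol_ne (hchn ψ _) hs (hloc v).1 (hloc v).2 (hHK v)
  have hcomp : ∀ s : ℂ, 2 < s.re → E.LSeries s * P s = G s * Q s := by
    intro s hs
    have h1 := (LSeries_hasProd E (s := s) hs).2
    have h2 : HasProd (fun v : HeightOneSpectrum (𝓞 K) => ∏ u : Ab v, (pol E u.1 s)⁻¹)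
        (E.LSeries s) := by
      let e : (Σ v : HeightOneSpectrum (𝓞 K), Ab v) ≃ HeightOneSpectrum (𝓞 F) :=
        { toFun := fun x => x.2.1
          invFun := fun u => ⟨low u, ⟨u, rfl⟩⟩
          left_inv := by
            rintro ⟨v, u, hu⟩
            have hv : low (K := K) u = v := HeightOneSpectrum.ext hu
            subst hv
            rfl
          right_inv := fun u => rfl }
      have h3 := e.hasProd_iff.2 h1
      refine h3.sigma fun v => ?_
      exact hasProd_fintype _ (.unconditional _)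
    have h3 := g2 s hs
    have h4 : HasProd (fun v : HeightOneSpectrum (𝓞 K) =>
        if v ∈ B then ∏ u : Ab v, pol E u.1 s else 1) (P s) := by
      have h6 := hasProd_prod_of_ne_finset_one (L := .unconditional _) (s := B)
        (f := fun v : HeightOneSpectrum (𝓞 K) =>
          if v ∈ B then ∏ u : Ab v, pol E u.1 s else 1) (fun v hv => if_neg hv)
      rw [Finset.prod_congr rfl (fun v hv => if_pos hv)] at h6
      exact h6
    have h5 : HasProd (fun v : HeightOneSpectrum (𝓞 K) =>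
        if v ∈ B then ∏ ψ, tpol n c (χ ψ (gen v)) v s else 1) (Q s) := by
      have h6 := hasProd_prod_of_ne_finset_one (L := .unconditional _) (s := B)
        (f := fun v : HeightOneSpectrum (𝓞 K) =>
          if v ∈ B then ∏ ψ, tpol n c (χ ψ (gen v)) v s else 1) (fun v hv => if_neg hv)
      rw [Finset.prod_congr rfl (fun v hv => if_pos hv)] at h6
      exact h6
    refine (h2.mul h4).unique ((h3.mul h5).congr_fun fun v => ?_)
    have hab' := above_prod (n := n) (c := c) hcf hlw v s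
    have hs2 : (1 / 2 : ℝ) < s.re := by linarith
    by_cases hv : v ∈ B
    · rw [if_pos hv, if_pos hv, Finset.prod_inv_distrib, hab', Finset.prod_congr rfl fun ψ _ =>
        efx_eq (n := n) (c := c) (χ ψ) v s, Finset.prod_inv_distrib,
        inv_mul_cancel₀ (Finset.prod_ne_zero_iff.2 fun u _ => pol_ne2 E u.1 hs),
        inv_mul_cancel₀ (Finset.prod_ne_zero_iff.2 fun ψ _ =>
          tpol_ne (hchn ψ _) hs2 (hloc v).1 (hloc v).2 (hHK v))]
    · rw [if_neg hv, if_neg hv, mul_one, mul_one]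
      have hdv : d ∉ v.asIdeal := fun h0 => hv ((hBm v).2 h0)
      obtain ⟨k1, k2⟩ := hgood v hdv
      have e1 : ∏ᶠ u : Ab v, facF n c v (Ideal.absNorm u.1.asIdeal) s =
          ∏ u : Ab v, facF n c v (Ideal.absNorm u.1.asIdeal) s := finprod_eq_prod_of_fintype _
      refine Eq.trans ?_ e1.symm
      refine Finset.prod_congr rfl fun u _ => ?_
      exact fac_eq u.2 hdv k1 k2 (hlw.norm v u.1 u.2) s
  have hx1 : ∀ x : ℂ, x * P 1 = G 1 * Q 1 ↔ x = ((rQ / rP : ℚ) : ℂ) * ∏ ψ, Gp ψ 1 := by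
    intro x
    have h1 : G 1 = ∏ ψ, Gp ψ 1 := rfl
    have h2 : (rP : ℂ) ≠ 0 := by exact_mod_cast hrP0
    rw [hrP, hrQ, h1, ← eq_div_iff h2]
    push_cast
    constructor
    · intro h
      rw [h]
      ring
    · intro h
      rw [h]
      ring
  refine ⟨rQ / rP, div_ne_zero hrQ0 hrP0, fun x => ?_⟩
  rw [← hx1]
  have h3m : (3 : ℂ) ∈ {s : ℂ | (2 : ℝ) < s.re} := by
    show (2 : ℝ) < (3 : ℂ).re
    norm_num
  have h3n : {s : ℂ | (2 : ℝ) < s.re} ∈ 𝓝 (3 : ℂ) :=
    (isOpen_lt continuous_const Complex.continuous_re).mem_nhds h3m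
  constructor
  · -- uniqueness
    rintro ⟨U, Φ, hUo, hUc, hUs, h1U, hΦ, hΦL, rfl⟩
    have h1 : AnalyticOnNhd ℂ (fun s => Φ s * P s) U :=
      fun s hs => (hΦ s hs).mul (hPdiff.analyticAt s)
    have h2 : AnalyticOnNhd ℂ (fun s => G s * Q s) U :=
      fun s _ => (g1.analyticAt s).mul (hQdiff.analyticAt s)
    have h4 : (fun s => Φ s * P s) =ᶠ[𝓝 (3 : ℂ)] fun s => G s * Q s := by
      filter_upwards [h3n] with s hs
      rw [hΦL s hs]
      exact hcomp s hs
    exact h1.eqOn_of_preconnected_of_eventuallyEq h2 hUc.isPreconnected (hUs h3m) h4 h1U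
  · -- existence
    intro hx
    set L : ℂ → ℂ := fun s => G s * Q s / P s with hL
    have hmer : Meromorphic L := fun s =>
      (((g1.analyticAt s).mul (hQdiff.analyticAt s)).meromorphicAt).div
        ((hPdiff.analyticAt s).meromorphicAt)
    have hLan : ∀ s : ℂ, P s ≠ 0 → AnalyticAt ℂ L s := fun s hs =>
      ((g1.analyticAt s).mul (hQdiff.analyticAt s)).div (hPdiff.analyticAt s) hs
    refine ⟨{s | AnalyticAt ℂ L s}, L, isOpen_analyticAt ℂ L, ?_, ?_, hLan 1 hP1,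
      fun s hs => hs, ?_, ?_⟩
    · have h5 : IsConnected ({s : ℂ | AnalyticAt ℂ L s}ᶜ)ᶜ :=
        Set.Countable.isConnected_compl_of_one_lt_rank (by simp) hmer.countable_compl_analyticAt
      rwa [compl_compl] at h5
    · intro s hs
      exact hLan s (hPne s hs)
    · intro s hs
      show G s * Q s / P s = _
      rw [div_eq_iff (hPne s hs), hcomp s hs]
    · show G 1 * Q 1 / P 1 = x
      rw [div_eq_iff hP1, hx]

end Pool.Agent.L7h60.RL
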