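import Pool.Agent.L7h82.RL.Stm3
import Pool.Agent.L7h60.RL.Cls

set_option autoImplicit false
set_option linter.unusedSectionVars false

/-! Project RL: the mean over the Frobenius automorphisms (`S_EUL`). -/

namespace Pool.Agent.L7h60.RL

open NumberField IsDedekindDomain
open Pool.Agent.L7h82.RL
open Pool.Agent.K4H55.BI (gen)
open Pool.Agent.L7h15.BK (exists_frob)

theorem s_EUL : S_EUL := by
  classical
  intro K F _ _ _ _ _ _ _ ψ 𝔣 χ h v u hu
  have hne : ∃ t : F ≃ₐ[K] F, t ∈ FS (K := K) F v u := exists_frob hu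
  have hfin : Finite (FS (K := K) F v u) := inferInstance
  have hpos : 0 < Nat.card (FS (K := K) F v u) := by
    obtain ⟨t, ht⟩ := hne
    have : Nonempty (FS (K := K) F v u) := ⟨⟨t, ht⟩⟩
    exact Nat.card_pos
  refine ⟨hpos, ?_⟩
  by_cases hv : 𝔣 ≤ v.asIdeal
  · obtain ⟨s, hs, h1⟩ := h.ram v hv u hu
    rw [(rc_zero_iff h v).2 hv]
    have hst : ∀ t : F ≃ₐ[K] F, t * s ∈ FS (K := K) F v u ↔ t ∈ FS (K := K) F v u := by
      intro t
      have e : ∀ x : 𝓞 F, (t * s) • x - x ^ Ideal.absNorm v.asIdeal =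
          (t • (s • x) - (s • x) ^ Ideal.absNorm v.asIdeal) +
            ((s • x) ^ Ideal.absNorm v.asIdeal - x ^ Ideal.absNorm v.asIdeal) := by
        intro x
        rw [mul_smul]
        ring
      have e2 : ∀ x : 𝓞 F, (s • x) ^ Ideal.absNorm v.asIdeal - x ^ Ideal.absNorm v.asIdeal ∈
          u.asIdeal := fun x => u.asIdeal.mem_of_dvd (sub_dvd_pow_sub_pow _ _ _) (hs x)
      constructor
      · intro ht y
        have h2 := ht (s⁻¹ • y)
        rw [e, smul_inv_smul] at h2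
        have h3 := e2 (s⁻¹ • y)
        rw [smul_inv_smul] at h3
        exact (u.asIdeal.add_mem_iff_left h3).1 h2
      · intro ht x
        rw [e]
        exact u.asIdeal.add_mem (ht _) (e2 x)
    have hS : (∑ t : F ≃ₐ[K] F, if t ∈ FS F v u then ((ψ t : ℂˣ) : ℂ) else 0) =
        (∑ t : F ≃ₐ[K] F, if t ∈ FS F v u then ((ψ t : ℂˣ) : ℂ) else 0) * ((ψ s : ℂˣ) : ℂ) := by
      conv_lhs => rw [← Equiv.sum_comp (Equiv.mulRight s)]
      rw [Finset.sum_mul]
      refine Finset.sum_congr rfl fun t _ => ?_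
      simp only [Equiv.coe_mulRight]
      by_cases ht : t ∈ FS (K := K) F v u
      · rw [if_pos ht, if_pos ((hst t).2 ht), map_mul, Units.val_mul]
      · rw [if_neg ht, if_neg (fun h => ht ((hst t).1 h)), zero_mul]
    have h4 : ((ψ s : ℂˣ) : ℂ) ≠ 1 := fun h => h1 (Units.ext h)
    have h5 : (∑ t : F ≃ₐ[K] F, if t ∈ FS F v u then ((ψ t : ℂˣ) : ℂ) else 0) = 0 := by
      have h6 : (∑ t : F ≃ₐ[K] F, if t ∈ FS F v u then ((ψ t : ℂˣ) : ℂ) else 0) *
          (((ψ s : ℂˣ) : ℂ) - 1) = 0 := by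
        rw [mul_sub, mul_one, ← hS, sub_self]
      rcases mul_eq_zero.1 h6 with h7 | h7
      · exact h7
      · exact absurd (sub_eq_zero.1 h7) h4
    rw [h5, mul_zero]
  · have h2 : (∑ t : F ≃ₐ[K] F, if t ∈ FS F v u then ((ψ t : ℂˣ) : ℂ) else 0) =
        (Nat.card (FS (K := K) F v u) : ℂ) * χ (gen v) := by
      rw [Finset.sum_congr rfl (g := fun t => if t ∈ FS F v u then χ (gen v) else 0) (fun t _ => by
        by_cases ht : t ∈ FS (K := K) F v u
        · rw [if_pos ht, if_pos ht]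
          exact h.frob v hv u hu t ht
        · rw [if_neg ht, if_neg ht])]
      rw [← Finset.sum_filter, Finset.sum_const, nsmul_eq_mul]
      have h3 := Fintype.card_subtype (fun t : F ≃ₐ[K] F => t ∈ FS F v u)
      rw [← h3, ← Nat.card_eq_fintype_card]
    rw [h2, ← mul_assoc, inv_mul_cancel₀ (by exact_mod_cast hpos.ne'), one_mul]

end Pool.Agent.L7h60.RL
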