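import Pool.Agent.L7h82.RL.Stm2
import Pool.Agent.L7h50.RL.Gs

set_option autoImplicit false
set_option linter.unusedSectionVars false

/-! Project RL: the product of the Gauss sums of a stable family (`S_GSM`). -/

namespace Pool.Agent.L7h60.RL

open NumberField IsDedekindDomain
open scoped ComplexConjugate
open Pool.Agent.L7h82.RL
open Pool.Agent.K4H55.CX (br)

/-- a stable family is stable under inversion -/
theorem stab_inv {𝒢 : Type} [CommGroup 𝒢] [Finite 𝒢] {k : ℕ} {ψ : Fin k → 𝒢} (hψ : Stab ψ) (φ : 𝒢) :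
    Nat.card {i // ψ i = φ⁻¹} = Nat.card {i // ψ i = φ} := by
  have hN : 0 < Nat.card 𝒢 := Nat.card_pos
  have h1 : φ ^ (Nat.card 𝒢 - 1) = φ⁻¹ := by
    rw [eq_inv_iff_mul_eq_one, ← pow_succ, Nat.sub_add_cancel hN, pow_card_eq_one']
  have h2 : (Nat.card 𝒢 - 1).Coprime (Nat.card 𝒢) := by
    have h3 := (Nat.coprime_self_add_right (m := Nat.card 𝒢 - 1) (n := 1)).2 (Nat.coprime_one_right _)
    rwa [Nat.sub_add_cancel hN] at h3
  rw [← h1]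
  exact hψ _ h2 φ

/-- a product over a stable family and over the inverses -/
theorem stab_prod_inv {𝒢 : Type} [CommGroup 𝒢] [Finite 𝒢] {k : ℕ} {ψ : Fin k → 𝒢} (hψ : Stab ψ) (f : 𝒢 → ℂ) :
    ∏ i, f (ψ i)⁻¹ = ∏ i, f (ψ i) := by
  classical
  have : Fintype 𝒢 := Fintype.ofFinite 𝒢
  have h1 : ∀ F : 𝒢 → ℂ, ∏ i, F (ψ i) = ∏ g, F g ^ Nat.card {i // ψ i = g} := by
    intro F
    rw [← Finset.prod_fiberwise Finset.univ ψ (fun i => F (ψ i))]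
    refine Finset.prod_congr rfl fun g _ => ?_
    rw [Finset.prod_congr rfl (g := fun _ => F g) (fun i hi => by rw [(Finset.mem_filter.1 hi).2]),
      Finset.prod_const]
    congr 1
    rw [Nat.card_eq_fintype_card, Fintype.card_subtype]
  rw [h1 (fun g => f g⁻¹), h1 f, ← Equiv.prod_comp (Equiv.inv 𝒢) (fun g => f g ^ Nat.card {i // ψ i = g})]
  refine Finset.prod_congr rfl fun g _ => ?_
  rw [Equiv.inv_apply, stab_inv hψ]

theorem s_GSM : S_GSM := by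
  intro hPCK hGM hPOW K _ _ _ σ δ h 𝒢 _ _ 𝔣 χ hP hm k ψ hψ
  obtain ⟨-, -, -, h4⟩ := hPOW K 𝒢 𝔣 χ hP hm
  obtain ⟨G, hG⟩ : ∃ G : 𝒢 → ℂ, ∀ g, G g = gm (K4H55.BI.ordK h) (gn (𝔣 g)) (χ g) := ⟨_, fun _ => rfl⟩
  have h1 : ∀ g, gm (K4H55.BI.ordK h) (gn (𝔣 g)) (br (χ g)) = conj (G g) ∧
      G g * conj (G g) = (Ideal.absNorm (𝔣 g) : ℂ) := by
    intro g
    obtain ⟨hm0, hPC⟩ := hPCK K (𝔣 g) (χ g) (hP g)
    obtain ⟨-, -, h5⟩ := hGM (𝓞 K) (K4H55.BI.ordK h) (gn (𝔣 g)) (χ g) hm0 hPC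
    obtain ⟨h6, h7⟩ := h5 ((hP g).unit (-1) isUnit_one.neg)
    rw [← hG] at h6 h7
    refine ⟨h6, ?_⟩
    rw [← h6, h7]
    have h8 : (K4H55.BI.ordK h).nm (gn (𝔣 g)) = Ideal.absNorm (𝔣 g) := by
      conv_rhs => rw [← L7h50.RL.gn_span (𝔣 g), Ideal.absNorm_span_singleton]
      rfl
    rw [h8]
  have h2 : ∀ g, gm (K4H55.BI.ordK h) (gn (𝔣 g)) (br (χ g)) = G g⁻¹ := by
    intro g
    rw [hG, (h4 g).1, (h4 g).2]
  obtain ⟨W, hW⟩ : ∃ W : ℂ, W = ∏ i, gm (K4H55.BI.ordK h) (gn (𝔣 (ψ i))) (br (χ (ψ i))) := ⟨_, rfl⟩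
  have hW1 : W = conj (∏ i, G (ψ i)) := by
    rw [hW, map_prod]
    exact Finset.prod_congr rfl fun i _ => (h1 (ψ i)).1
  have hW2 : W = ∏ i, G (ψ i) := by
    rw [hW, Finset.prod_congr rfl fun i _ => h2 (ψ i)]
    exact stab_prod_inv hψ G
  have hW3 : conj W = W := by
    conv_lhs => rw [hW2]
    rw [← hW1]
  obtain ⟨w, hw⟩ := Complex.conj_eq_iff_real.1 hW3
  have hsq : w ^ 2 = ∏ i, (Ideal.absNorm (𝔣 (ψ i)) : ℝ) := by
    have h5 : W * W = ∏ i, (Ideal.absNorm (𝔣 (ψ i)) : ℂ) := by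
      nth_rewrite 1 [hW2]
      rw [hW1, map_prod, ← Finset.prod_mul_distrib]
      exact Finset.prod_congr rfl fun i _ => (h1 (ψ i)).2
    rw [hw] at h5
    have h6 : ((w ^ 2 : ℝ) : ℂ) = ((∏ i, (Ideal.absNorm (𝔣 (ψ i)) : ℝ) : ℝ) : ℂ) := by
      push_cast
      rw [← h5]
      ring
    exact_mod_cast h6
  have habs : √(∏ i, (Ideal.absNorm (𝔣 (ψ i)) : ℝ)) = |w| := by
    rw [← hsq, Real.sqrt_sq_eq_abs]
  rcases le_total 0 w with h0 | h0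
  · refine ⟨1, Or.inl rfl, ?_⟩
    rw [← hW, hw, habs, abs_of_nonneg h0, one_mul]
  · refine ⟨-1, Or.inr rfl, ?_⟩
    rw [← hW, hw, habs, abs_of_nonpos h0]
    congr 1
    ring

end Pool.Agent.L7h60.RL
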