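import Pool.Agent.L7h82.RL.Stm2
import Pool.Agent.L7h50.RL.Rat

set_option autoImplicit false
set_option linter.unusedSectionVars false

/-! Project RL: rationality of products of character sums over stable families (`S_RATM`). -/

namespace Pool.Agent.L7h60.RL

open NumberField IsDedekindDomain
open scoped ComplexConjugate
open Pool.Agent.L7h82.RL
open Pool.Agent.K4H55.CX (br)

/-- a product over a family, written with the multiplicities -/
theorem prod_mult {𝒢 : Type} [Fintype 𝒢] {k : ℕ} (ψ : Fin k → 𝒢) (f : 𝒢 → ℂ) :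
    ∏ i, f (ψ i) = ∏ g, f g ^ Nat.card {i // ψ i = g} := by
  classical
  rw [← Finset.prod_fiberwise Finset.univ ψ (fun i => f (ψ i))]
  refine Finset.prod_congr rfl fun g _ => ?_
  rw [Finset.prod_congr rfl (g := fun _ => f g) (fun i hi => by rw [(Finset.mem_filter.1 hi).2]),
    Finset.prod_const]
  congr 1
  rw [Nat.card_eq_fintype_card, Fintype.card_subtype]

theorem s_RATM : S_RATM := by
  intro hCYC hPOW _ K _ _ 𝒢 _ _ 𝔣 χ hP hm k ψ hψ R Z
  classical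
  have : Fintype 𝒢 := Fintype.ofFinite 𝒢
  obtain ⟨V, hV⟩ := L7h50.RL.exists_V hPOW hP hm
  obtain ⟨-, -, h3, h4⟩ := hPOW K 𝒢 𝔣 χ hP hm
  have hval : ∀ g, Polynomial.aeval (Complex.exp (2 * Real.pi * Complex.I / (Nat.card 𝒢 : ℂ)))
      (∑ x ∈ R (𝔣 g), V g⁻¹ x * Polynomial.C (Z (𝔣 g) x)) =
      ∑ x ∈ R (𝔣 g), conj (χ g x) * (Z (𝔣 g) x : ℂ) := by
    intro g
    rw [map_sum]
    refine Finset.sum_congr rfl fun x _ => ?_
    rw [map_mul, (hV g⁻¹ x).1, Polynomial.aeval_C, (h4 g).2]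
    rfl
  obtain ⟨r, hr⟩ := hCYC 𝒢 Finset.univ
    (fun g => (∑ x ∈ R (𝔣 g), V g⁻¹ x * Polynomial.C (Z (𝔣 g) x)) ^ Nat.card {i // ψ i = g})
    (fun _ _ _ _ => Finset.mem_univ _) (by
    intro g _ j hj
    rw [map_pow, map_pow, hψ j hj g, hval, map_sum, (h3 g j hj).1]
    congr 1
    refine Finset.sum_congr rfl fun x _ => ?_
    rw [map_mul, (hV g⁻¹ x).2 j hj, Polynomial.aeval_C, inv_pow, (h4 (g ^ j)).2]
    rfl)
  refine ⟨r, ?_⟩
  rw [← hr, prod_mult ψ (fun g => ∑ x ∈ R (𝔣 g), conj (χ g x) * (Z (𝔣 g) x : ℂ))]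
  refine Finset.prod_congr rfl fun g _ => ?_
  rw [map_pow, hval]

end Pool.Agent.L7h60.RL
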