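import Pool.Agent.L7h82.RL.Stm2

set_option autoImplicit false
set_option linter.unusedSectionVars false

/-! Project RL: the characters of a rational representation are stable under powers (`S_STAB`). -/

namespace Pool.Agent.L7h60.RL

open Pool.Agent.L7h82.RL

/-- the roots of a product of linear factors -/
theorem roots_prod {k : ℕ} (a : Fin k → ℂ) :
    (∏ i, (Polynomial.X - Polynomial.C (a i))).roots = Finset.univ.val.map a := by
  have h := Polynomial.roots_multiset_prod_X_sub_C (Finset.univ.val.map a)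
  rwa [Multiset.map_map] at h

/-- **STAB** -/
theorem s_STAB : S_STAB := by
  intro G _ _ k ρ ψ hρ
  classical
  have htr : ∀ g, ∑ i, ((ψ i g : ℂˣ) : ℂ) = ((ρ g).trace : ℂ) := by
    intro g
    have h1 := Matrix.trace_eq_sum_roots_charpoly ((ρ g).map (algebraMap ℚ ℂ))
    rw [hρ g, roots_prod] at h1
    have h2 : ((ρ g).map (algebraMap ℚ ℂ)).trace = ((ρ g).trace : ℂ) := by
      simp [Matrix.trace]
    rw [h2] at h1
    exact h1.symm
  refine ⟨?_, fun g => ?_⟩
  · intro j hj φ
    by_cases hN0 : Nat.card (G →* ℂˣ) = 0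
    · rw [hN0, Nat.coprime_zero_right] at hj
      rw [hj, pow_one]
    have : Finite (G →* ℂˣ) := Nat.finite_of_card_ne_zero hN0
    have : Fintype (G →* ℂˣ) := Fintype.ofFinite _
    obtain ⟨N, hN⟩ : ∃ N : ℕ, N = Nat.card (G →* ℂˣ) := ⟨_, rfl⟩
    rw [← hN] at hj hN0
    have i1 : NeZero N := ⟨hN0⟩
    have hζ := Complex.isPrimitiveRoot_exp N hN0
    obtain ⟨ζ, hζd⟩ : ∃ ζ : ℂ, ζ = Complex.exp (2 * Real.pi * Complex.I / (N : ℂ)) := ⟨_, rfl⟩
    rw [← hζd] at hζ
    -- the sums of the powers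
    have hsum : ∀ g, ∑ i, (((ψ i ^ j) g : ℂˣ) : ℂ) = ∑ i, ((ψ i g : ℂˣ) : ℂ) := by
      intro g
      have h1 : ∀ i, ∃ e : ℕ, ζ ^ e = ((ψ i g : ℂˣ) : ℂ) := by
        intro i
        have h2 : ((ψ i g : ℂˣ) : ℂ) ^ N = 1 := by
          have h3 : ψ i ^ N = 1 := by
            rw [hN]
            exact pow_card_eq_one' (x := ψ i)
          have h4 := congrArg (fun f : G →* ℂˣ => ((f g : ℂˣ) : ℂ)) h3
          simpa using h4
        obtain ⟨e, -, he⟩ := hζ.eq_pow_of_pow_eq_one h2
        exact ⟨e, he⟩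
      choose e he using h1
      obtain ⟨T, hT⟩ : ∃ T : Polynomial ℚ, T = (∑ i, Polynomial.X ^ e i) - Polynomial.C (ρ g).trace :=
        ⟨_, rfl⟩
      have haev : ∀ z : ℂ, Polynomial.aeval z T = ∑ i, z ^ e i - ((ρ g).trace : ℂ) := by
        intro z
        rw [hT, map_sub, map_sum, Polynomial.aeval_C]
        simp
      have h0 : Polynomial.aeval ζ T = 0 := by
        rw [haev, Finset.sum_congr rfl fun i _ => he i, htr, sub_self]
      have hdvd := minpoly.dvd ℚ ζ h0
      have hmin : minpoly ℚ ζ = minpoly ℚ (ζ ^ j) := by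
        rw [← Polynomial.cyclotomic_eq_minpoly_rat hζ (Nat.pos_of_ne_zero hN0),
          ← Polynomial.cyclotomic_eq_minpoly_rat (hζ.pow_of_coprime j hj) (Nat.pos_of_ne_zero hN0)]
      rw [hmin] at hdvd
      have h5 : Polynomial.aeval (ζ ^ j) T = 0 := by
        obtain ⟨Q, hQ⟩ := hdvd
        rw [hQ, map_mul, minpoly.aeval, zero_mul]
      rw [haev, sub_eq_zero] at h5
      rw [htr, ← h5]
      refine Finset.sum_congr rfl fun i _ => ?_
      rw [← pow_mul, mul_comm, pow_mul, he i]
      simp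
    -- independence of the characters
    have hli : LinearIndependent ℂ (fun φ : G →* ℂˣ => (fun g => ((φ g : ℂˣ) : ℂ) : G → ℂ)) := by
      have h1 := linearIndependent_monoidHom G ℂ
      have h2 : Function.Injective (fun φ : G →* ℂˣ => (Units.coeHom ℂ).comp φ) := by
        intro a b hab
        ext g
        exact congrArg (fun f : G →* ℂ => f g) hab
      exact h1.comp _ h2
    have hgrp : ∀ (F : Fin k → (G →* ℂˣ)) (g : G), ∑ i, ((F i g : ℂˣ) : ℂ) =
        ∑ φ : G →* ℂˣ, (Nat.card {i // F i = φ} : ℂ) * ((φ g : ℂˣ) : ℂ) := by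
      intro F g
      rw [← Finset.sum_fiberwise Finset.univ F (fun i => ((F i g : ℂˣ) : ℂ))]
      refine Finset.sum_congr rfl fun φ _ => ?_
      rw [Finset.sum_congr rfl (g := fun _ => ((φ g : ℂˣ) : ℂ)) (fun i hi => by
        rw [(Finset.mem_filter.1 hi).2]), Finset.sum_const, nsmul_eq_mul]
      congr 2
      rw [Nat.card_eq_fintype_card, Fintype.card_subtype]
    have hcard : ∀ φ : G →* ℂˣ, Nat.card {i // ψ i ^ j = φ} = Nat.card {i // ψ i = φ} := by
      rw [Fintype.linearIndependent_iff] at hli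
      intro φ
      have h1 := hli (fun φ => (Nat.card {i // ψ i ^ j = φ} : ℂ) - (Nat.card {i // ψ i = φ} : ℂ)) (by
        funext g
        simp only [Finset.sum_apply, Pi.smul_apply, smul_eq_mul, sub_mul, Finset.sum_sub_distrib,
          Pi.zero_apply]
        rw [← hgrp (fun i => ψ i ^ j) g, ← hgrp ψ g, hsum g, sub_self]) φ
      exact_mod_cast sub_eq_zero.1 h1
    rw [← hcard (φ ^ j)]
    have hinj : Function.Injective (fun x : G →* ℂˣ => x ^ j) := by
      have h1 : (Nat.card (G →* ℂˣ)).Coprime j := by rw [← hN]; exact hj.symm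
      exact (Nat.Coprime.pow_left_bijective h1).1
    refine Nat.card_congr (Equiv.subtypeEquivRight fun i => ?_)
    exact ⟨fun h => hinj h, fun h => by rw [h]⟩
  · have h1 := Matrix.det_eq_prod_roots_charpoly ((ρ g).map (algebraMap ℚ ℂ))
    rw [hρ g, roots_prod] at h1
    have h2 : ((ρ g).map (algebraMap ℚ ℂ)).det = ((ρ g).det : ℂ) := by
      have h3 := (RingHom.map_det (algebraMap ℚ ℂ) (ρ g)).symm
      exact h3
    rw [h2] at h1
    exact h1.symm

end Pool.Agent.L7h60.RL
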